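import Pool.Agent.H577.QR.Stm

/-! # Project QR, CHI: characters of order four come from Gaussian integers (helper376) -/

set_option autoImplicit false

namespace Pool.Agent.H376.QR577

open Pool.Agent.Y153.QN3 Pool.Agent.H577.QR

/-- two characters of order four are equal or conjugate -/
theorem dich {p : ℕ} [hp : Fact p.Prime] {χ ψ : MulChar (ZMod p) ℂ} (h4 : χ ^ 4 = 1)
    (h2 : χ ^ 2 ≠ 1) (k4 : ψ ^ 4 = 1) (k2 : ψ ^ 2 ≠ 1) :
    (∀ x, χ x = ψ x) ∨ ∀ x, χ x = (starRingEnd ℂ) (ψ x) := by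
  obtain ⟨g, hg⟩ := IsCyclic.exists_monoid_generator (α := (ZMod p)ˣ)
  have key : ∀ θ : MulChar (ZMod p) ℂ, θ ^ 4 = 1 → θ ^ 2 ≠ 1 →
      θ (g : ZMod p) = Complex.I ∨ θ (g : ZMod p) = -Complex.I := by
    intro θ t4 t2
    have e1 : θ (g : ZMod p) ^ 4 = 1 := by
      rw [← MulChar.pow_apply_coe, t4, MulChar.one_apply_coe]
    have e2 : θ (g : ZMod p) ^ 2 ≠ 1 := by
      intro h
      apply t2
      refine MulChar.ext fun u => ?_
      obtain ⟨n, hn⟩ := Submonoid.mem_powers_iff _ _ |>.1 (hg u)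
      rw [MulChar.pow_apply_coe, MulChar.one_apply_coe, ← hn, Units.val_pow_eq_pow_val, map_pow,
        ← pow_mul, mul_comm, pow_mul, h, one_pow]
    have e3 : (θ (g : ZMod p) ^ 2 - 1) * (θ (g : ZMod p) ^ 2 + 1) = 0 := by
      linear_combination e1
    have e4 : θ (g : ZMod p) ^ 2 + 1 = 0 := by
      rcases mul_eq_zero.1 e3 with h | h
      · exact absurd (sub_eq_zero.1 h) e2
      · exact h
    have e5 : (θ (g : ZMod p) - Complex.I) * (θ (g : ZMod p) + Complex.I) = 0 := by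
      linear_combination e4 - Complex.I_sq
    rcases mul_eq_zero.1 e5 with h | h
    · exact Or.inl (sub_eq_zero.1 h)
    · exact Or.inr (eq_neg_of_add_eq_zero_left h)
  have hall : ∀ x : ZMod p, x = 0 ∨ ∃ n : ℕ, x = (g : ZMod p) ^ n := by
    intro x
    by_cases hx : x = 0
    · exact Or.inl hx
    · right
      obtain ⟨n, hn⟩ := Submonoid.mem_powers_iff _ _ |>.1 (hg (Units.mk0 x hx))
      refine ⟨n, ?_⟩
      have := congrArg Units.val hn
      rw [Units.val_pow_eq_pow_val, Units.val_mk0] at this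
      exact this.symm
  have hz : ∀ θ : MulChar (ZMod p) ℂ, θ 0 = 0 := fun θ => MulChar.map_zero θ
  have f1 : χ (g : ZMod p) = ψ (g : ZMod p) → ∀ x, χ x = ψ x := by
    intro h x
    rcases hall x with rfl | ⟨n, rfl⟩
    · rw [hz, hz]
    · rw [map_pow, map_pow, h]
  have f2 : χ (g : ZMod p) = (starRingEnd ℂ) (ψ (g : ZMod p)) →
      ∀ x, χ x = (starRingEnd ℂ) (ψ x) := by
    intro h x
    rcases hall x with rfl | ⟨n, rfl⟩
    · rw [hz, hz, map_zero]
    · rw [map_pow, map_pow, map_pow, h]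
  rcases key χ h4 h2 with c1 | c1 <;> rcases key ψ k4 k2 with c2 | c2
  · exact Or.inl (f1 (by rw [c1, c2]))
  · refine Or.inr (f2 ?_)
    rw [c1, c2, map_neg, Complex.conj_I, neg_neg]
  · refine Or.inr (f2 ?_)
    rw [c1, c2, Complex.conj_I]
  · exact Or.inl (f1 (by rw [c1, c2]))

theorem chi4 : S_CHI := by
  intro p hp hp4 χ hχ
  have hF : Fact p.Prime := ⟨hp⟩
  obtain ⟨a, b, hab⟩ := Nat.Prime.sq_add_sq (p := p) (by omega)
  have hn : (⟨a, b⟩ : GaussianInt).norm = (p : ℤ) := by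
    rw [Zsqrtd.norm_def, ← hab]
    push_cast
    ring
  obtain ⟨φ, hφ⟩ := exists_red (⟨a, b⟩ : GaussianInt) hn
  have hinj : Function.Injective GaussianInt.toComplex := fun x y h =>
    GaussianInt.toComplex_injective h
  set ψ : MulChar (ZMod p) ℂ := (chi φ hp4).ringHomComp GaussianInt.toComplex with hψ
  have hψv : ∀ x, ψ x = GaussianInt.toComplex (chi φ hp4 x) := fun x => rfl
  have k4 : ψ ^ 4 = 1 := by
    refine MulChar.ext fun u => ?_
    rw [MulChar.pow_apply_coe, MulChar.one_apply_coe, hψv, ← map_pow,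
      chi_pow_four φ hp4 (Units.ne_zero u), map_one]
  have k2 : ψ ^ 2 ≠ 1 := by
    intro h
    apply chi_sq_ne_one φ hp4
    refine MulChar.ext fun u => hinj ?_
    have h1 := congrArg (fun θ : MulChar (ZMod p) ℂ => θ (u : ZMod p)) h
    simp only [MulChar.pow_apply_coe, MulChar.one_apply_coe, hψv] at h1
    rw [MulChar.pow_apply_coe, MulChar.one_apply_coe, map_pow, h1, map_one]
  have h4 : χ ^ 4 = 1 := by
    rw [← hχ]
    exact pow_orderOf_eq_one χ
  have h2 : χ ^ 2 ≠ 1 := by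
    intro h
    have h1 := orderOf_dvd_of_pow_eq_one h
    rw [hχ] at h1
    exact absurd (Nat.le_of_dvd (by norm_num) h1) (by norm_num)
  -- the values at odd numbers
  have hval : ∀ (n m : ℕ) (ε : GaussianInt → GaussianInt), n % 2 = 1 → Sym (n : ℤ) m ε → n ∣ m →
      ψ (n : ZMod p) = GaussianInt.toComplex (ε ⟨a, b⟩) := by
    intro n m ε hn2 hS hnm
    rw [hψv]
    congr 1
    by_cases hpn : p ∣ n
    · have e1 : (n : ZMod p) = 0 := (ZMod.natCast_eq_zero_iff n p).2 hpn
      rw [e1, chi_zero]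
      symm
      rw [hS.zero]
      intro hcop
      rw [cop_iff, hn] at hcop
      have hpm : (p : ℤ) ∣ (m : ℤ) := by exact_mod_cast hpn.trans hnm
      have h3 := hcop.isUnit_of_dvd' (dvd_refl _) hpm
      rw [Int.isUnit_iff] at h3
      have := hp.two_le
      omega
    · have hp2n : ¬ (p : ℤ) ∣ 2 * (n : ℤ) := by
        intro h
        have h3 : p ∣ 2 * n := by exact_mod_cast h
        rcases (hp.dvd_mul).1 h3 with h5 | h5
        · have h6 := Nat.le_of_dvd (by norm_num) h5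
          have := hp.two_le
          have h7 : p = 2 := by omega
          omega
        · exact hpn h5
      have h3 := hS.split ⟨a, b⟩ p hp hp2n hn
      rw [split_iff hp4 hφ (n : ℤ) (hS.U _)] at h3
      rw [← h3]
      congr 1
      push_cast
      rfl
  rcases dich h4 h2 k4 k2 with hc | hc
  · refine ⟨a, b, hab, fun n m ε hn2 hS hnm => ?_⟩
    rw [hc, hval n m ε hn2 hS hnm]
  · refine ⟨b, a, by rw [add_comm]; exact hab, fun n m ε hn2 hS hnm => ?_⟩
    rw [hc, hval n m ε hn2 hS hnm]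
    have e1 : (⟨b, a⟩ : GaussianInt) = ⟨0, 1⟩ * star (⟨a, b⟩ : GaussianInt) := by
      apply Zsqrtd.ext
      · simp [Zsqrtd.re_mul]
      · simp [Zsqrtd.im_mul]
    have hu : IsUnit (⟨0, 1⟩ : GaussianInt) := by
      rw [← Zsqrtd.norm_eq_one_iff]
      simp [Zsqrtd.norm_def]
    rw [e1, hS.mul, hS.unit _ hu, one_mul, hS.star, GaussianInt.toComplex_star]

end Pool.Agent.H376.QR577
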